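import Pool.Agent.Helper73.KT.Glue

/-!
# Residual power sums which are power sums of different elements (helper40)
-/

open Module Polynomial

namespace Pool.Agent.Helper40.PC

open Pool.Agent.Helper73.KT

section

variable {κ : Type*} [Field κ]

/-- Coefficients with vanishing power sums vanish. -/
theorem coeff_zero (S : Finset κ) (a : κ → κ)
    (h : ∀ j : ℕ, 0 < j → ∑ z ∈ S, a z * z ^ j = 0) : ∀ z ∈ S, z ≠ 0 → a z = 0 := by
  classical
  intro z hz hz0
  have h1 : ∀ p : κ[X], ∑ y ∈ S, a y * (y * p.eval y) = 0 := by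
    intro p
    have h2 : ∀ y, a y * (y * p.eval y) =
        ∑ i ∈ Finset.range (p.natDegree + 1), p.coeff i * (a y * y ^ (i + 1)) := by
      intro y
      rw [eval_eq_sum_range, Finset.mul_sum, Finset.mul_sum]
      refine Finset.sum_congr rfl fun i _ => ?_
      ring
    rw [Finset.sum_congr rfl fun y _ => h2 y, Finset.sum_comm]
    refine Finset.sum_eq_zero fun i _ => ?_
    rw [← Finset.mul_sum, h (i + 1) (Nat.succ_pos i), mul_zero]
  have h3 := h1 (∏ y ∈ S.erase z, (X - C y))
  rw [Finset.sum_eq_single_of_mem z hz] at h3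
  · have h4 : (∏ y ∈ S.erase z, (X - C y)).eval z ≠ 0 := by
      rw [eval_prod, Finset.prod_ne_zero_iff]
      intro y hy
      rw [eval_sub, eval_X, eval_C]
      exact sub_ne_zero.2 (Finset.ne_of_mem_erase hy).symm
    rcases mul_eq_zero.1 h3 with h5 | h5
    · exact h5
    · exact absurd h5 (mul_ne_zero hz0 h4)
  · intro y hy hyz
    have h4 : (∏ y ∈ S.erase z, (X - C y)).eval y = 0 := by
      rw [eval_prod]
      refine Finset.prod_eq_zero (Finset.mem_erase.2 ⟨hyz, hy⟩) ?_
      rw [eval_sub, eval_X, eval_C, sub_self]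
    rw [h4, mul_zero, mul_zero]

end

section

variable {L κ W : Type*} [Field L] [CharZero L] [IsAlgClosed L] [Field κ] [AddCommGroup W]
  [Module L W] [FiniteDimensional L W] (M : integralClosure ℤ L →+* κ)

/-- If the power sums of the residual eigenvalues of `T` and of the elements of `B` are the power
sums of at least `dim W + |B|` different elements, then all eigenvalues of `T` are simple. -/
theorem mult_le_one {T : End L W} (B : Multiset L) (S : Finset κ) (h0 : (0 : κ) ∉ S)
    (hdim : finrank L W + Multiset.card B ≤ S.card)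
    (hps : ∀ j : ℕ, 0 < j → ∑ c ∈ eigs T, (mult T c : κ) * res M c ^ j +
      (B.map (fun b => res M b ^ j)).sum = ∑ z ∈ S, z ^ j) (a : L) : mult T a ≤ 1 := by
  classical
  -- the residual multiplicities
  let n : κ → ℕ := fun z =>
    ∑ c ∈ (eigs T).filter (fun c => res M c = z), mult T c + (B.map (res M)).count z
  let Y : Finset κ := S ∪ ((eigs T).image (res M) ∪ (B.map (res M)).toFinset)
  have hY1 : ∀ c ∈ eigs T, res M c ∈ Y := fun c hc =>
    Finset.mem_union_right _ (Finset.mem_union_left _ (Finset.mem_image_of_mem _ hc))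
  have hY2 : (B.map (res M)).toFinset ⊆ Y := fun z hz =>
    Finset.mem_union_right _ (Finset.mem_union_right _ hz)
  have hY3 : S ⊆ Y := Finset.subset_union_left
  have hB : ∀ g : κ → κ, (B.map (fun b => g (res M b))).sum =
      ∑ z ∈ Y, ((B.map (res M)).count z : κ) * g z := by
    intro g
    have h1 : B.map (fun b => g (res M b)) = (B.map (res M)).map g := by
      rw [Multiset.map_map]; rfl
    rw [h1, Finset.sum_multiset_map_count]
    refine Finset.sum_subset_zero_on_sdiff hY2 ?_ ?_
    · intro z hz
      rw [Finset.mem_sdiff, Multiset.mem_toFinset] at hz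
      rw [Multiset.count_eq_zero_of_notMem hz.2, Nat.cast_zero, zero_mul]
    · intro z _
      rw [nsmul_eq_mul]
  have hE : ∀ g : κ → κ, ∑ c ∈ eigs T, (mult T c : κ) * g (res M c) =
      ∑ z ∈ Y, ((∑ c ∈ (eigs T).filter (fun c => res M c = z), mult T c : ℕ) : κ) * g z := by
    intro g
    rw [← Finset.sum_fiberwise_of_maps_to hY1]
    refine Finset.sum_congr rfl fun z _ => ?_
    rw [Nat.cast_sum, Finset.sum_mul]
    refine Finset.sum_congr rfl fun c hc => ?_
    rw [(Finset.mem_filter.1 hc).2]
  have hn : ∀ z ∈ Y, z ≠ 0 → (n z : κ) = if z ∈ S then 1 else 0 := by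
    have h1 := coeff_zero Y (fun z => (n z : κ) - if z ∈ S then 1 else 0) ?_
    · intro z hz hz0
      exact sub_eq_zero.1 (h1 z hz hz0)
    · intro j hj
      have h2 := hps j hj
      rw [hE (fun z => z ^ j), hB (fun z => z ^ j)] at h2
      have h3 : ∑ z ∈ S, z ^ j = ∑ z ∈ Y, (if z ∈ S then (1 : κ) else 0) * z ^ j := by
        rw [← Finset.sum_subset hY3]
        · refine Finset.sum_congr rfl fun z hz => ?_
          rw [if_pos hz, one_mul]
        · intro z _ hz
          rw [if_neg hz, zero_mul]
      rw [h3] at h2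
      simp only [sub_mul, Finset.sum_sub_distrib]
      rw [← h2, ← Finset.sum_add_distrib, sub_eq_zero]
      refine Finset.sum_congr rfl fun z _ => ?_
      change (((∑ c ∈ (eigs T).filter (fun c => res M c = z), mult T c +
        (B.map (res M)).count z : ℕ)) : κ) * z ^ j = _
      rw [Nat.cast_add, add_mul]
  -- the total multiplicity
  have htot : ∑ z ∈ Y, n z = finrank L W + Multiset.card B := by
    have h1 : ∑ z ∈ Y, (B.map (res M)).count z = Multiset.card B := by
      have h2 := Multiset.toFinset_sum_count_eq (B.map (res M))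
      rw [Multiset.card_map] at h2
      rw [← h2]
      symm
      refine Finset.sum_subset hY2 ?_
      intro z _ hz
      rw [Multiset.mem_toFinset] at hz
      exact Multiset.count_eq_zero_of_notMem hz
    have h3 : ∑ z ∈ Y, ∑ c ∈ (eigs T).filter (fun c => res M c = z), mult T c = finrank L W := by
      rw [Finset.sum_fiberwise_of_maps_to hY1, sum_mult T]
    change ∑ z ∈ Y, (∑ c ∈ (eigs T).filter (fun c => res M c = z), mult T c +
        (B.map (res M)).count z) = _
    rw [Finset.sum_add_distrib, h1, h3]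
  have hpos : ∀ z ∈ S, 1 ≤ n z := by
    intro z hz
    have h1 := hn z (hY3 hz) (fun h => h0 (h ▸ hz))
    rw [if_pos hz] at h1
    rw [Nat.one_le_iff_ne_zero]
    intro h2
    rw [h2, Nat.cast_zero] at h1
    exact zero_ne_one h1
  have hsum : ∑ z ∈ S, n z + ∑ z ∈ Y \ S, n z = ∑ z ∈ Y, n z := by
    rw [add_comm]
    exact Finset.sum_sdiff hY3
  have hcard : S.card ≤ ∑ z ∈ S, n z := by
    rw [Finset.card_eq_sum_ones]
    exact Finset.sum_le_sum hpos
  have hle : ∀ z ∈ Y, n z ≤ 1 := by
    intro z hz
    by_contra hcon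
    push Not at hcon
    by_cases hzS : z ∈ S
    · have h1 : ∑ z ∈ S, 1 < ∑ z ∈ S, n z :=
        Finset.sum_lt_sum hpos ⟨z, hzS, hcon⟩
      rw [← Finset.card_eq_sum_ones] at h1
      omega
    · have h1 : n z ≤ ∑ z ∈ Y \ S, n z :=
        Finset.single_le_sum (f := n) (fun _ _ => Nat.zero_le _) (Finset.mem_sdiff.2 ⟨hz, hzS⟩)
      omega
  by_cases ha : a ∈ eigs T
  · have h1 := hle (res M a) (hY1 a ha)
    have h2 : mult T a ≤ ∑ c ∈ (eigs T).filter (fun c => res M c = res M a), mult T c :=
      Finset.single_le_sum (f := fun c => mult T c) (fun _ _ => Nat.zero_le _)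
        (Finset.mem_filter.2 ⟨ha, rfl⟩)
    change ∑ c ∈ (eigs T).filter (fun c => res M c = res M a), mult T c +
      (B.map (res M)).count (res M a) ≤ 1 at h1
    omega
  · rw [mult_zero_of_notMem ha]
    omega

end

end Pool.Agent.Helper40.PC
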