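import Pool.Agent.Helper40.PC.Ord

/-!
# Residual eigenvalues of a self-dual endomorphism (helper40)
-/

open Module Polynomial

namespace Pool.Agent.Helper40.PC

open Pool.Agent.Helper73.KT

section form

variable {L W : Type*} [Field L] [CharZero L] [IsAlgClosed L] [AddCommGroup W] [Module L W]
  [FiniteDimensional L W]

omit [CharZero L] [IsAlgClosed L] [FiniteDimensional L W] in
theorem functional_zero {T : End L W} (g : W →ₗ[L] L) {μ : L} (hg : ∀ y, g (T y) = μ * g y)
    {c : L} (hc : c ≠ μ) {w : W} (hw : w ∈ T.maxGenEigenspace c) : g w = 0 := by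
  rw [End.mem_maxGenEigenspace] at hw
  obtain ⟨k, hk⟩ := hw
  have h1 : ∀ (k : ℕ) (y : W), g (((T - c • 1 : End L W) ^ k) y) = (μ - c) ^ k * g y := by
    intro k
    induction k with
    | zero => intro y; simp
    | succ k ih =>
      intro y
      rw [pow_succ, End.mul_apply, ih, LinearMap.sub_apply, LinearMap.smul_apply, End.one_apply,
        map_sub, hg, map_smul, smul_eq_mul]
      ring
  have h2 := h1 k w
  rw [hk, map_zero] at h2
  exact (mul_eq_zero.1 h2.symm).resolve_left (pow_ne_zero k (sub_ne_zero.2 hc.symm))

variable {T : End L W} (b : W →ₗ[L] W →ₗ[L] L) {Q : L}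

/-- If only the eigenvalue `a` is not simple and has a Jordan block of size two, then `a ^ 2` is
the square of the multiplier. -/
theorem dual_zero (hinj : Function.Injective T)
    (hbb : ∀ y z, b (T y) (T z) = Q ^ 2 * b y z) {a : L} {x : W}
    (hx : (T - a • 1) ((T - a • 1) x) = 0) (hmc : ∀ c, c ≠ a → mult T c ≤ 1)
    {c : L} (hc : c ≠ a ∨ a ^ 2 ≠ Q ^ 2) {w : W} (hw : w ∈ T.maxGenEigenspace c) :
    b ((T - a • 1) x) w = 0 := by
  set v := (T - a • 1) x with hvdef
  have hTv : T v = a • v := by
    have := hx
    rw [LinearMap.sub_apply, LinearMap.smul_apply, End.one_apply, sub_eq_zero] at this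
    exact this
  have hTx : T x = a • x + v := by
    rw [hvdef, LinearMap.sub_apply, LinearMap.smul_apply, End.one_apply]; abel
  by_cases hv : v = 0
  · rw [hv, map_zero, LinearMap.zero_apply]
  have ha0 : a ≠ 0 := by
    rintro rfl
    rw [zero_smul] at hTv
    exact hv (hinj (by rw [hTv, map_zero]))
  have hg : ∀ y, b v (T y) = (Q ^ 2 / a) * b v y := by
    intro y
    have h1 := hbb v y
    rw [hTv, map_smul, LinearMap.smul_apply, smul_eq_mul] at h1
    field_simp
    linear_combination h1
  by_cases hcm : c = Q ^ 2 / a
  · have hca : c ≠ a := by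
      rcases hc with h | h
      · exact h
      · rintro rfl
        apply h
        have h1 : c * c = Q ^ 2 := by
          nth_rewrite 1 [hcm]
          rw [div_mul_cancel₀ _ ha0]
        rw [pow_two, h1]
    have hTw : T w = c • w := eigenvector_of_mult (hmc c hca) hw
    by_cases hw0 : w = 0
    · rw [hw0, map_zero]
    have hc0 : c ≠ 0 := by
      intro h0
      rw [h0, zero_smul] at hTw
      exact hw0 (hinj (by rw [hTw, map_zero]))
    have h11 := hbb x w
    have hac : a * c = Q ^ 2 := by rw [hcm, mul_div_cancel₀ _ ha0]
    rw [hTx, hTw, map_smul, map_add, map_smul, LinearMap.add_apply, LinearMap.smul_apply,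
      smul_eq_mul, smul_eq_mul, ← hac] at h11
    have h12 : c * b v w = 0 := by linear_combination h11
    exact (mul_eq_zero.1 h12).resolve_left hc0
  · exact functional_zero (b v) hg hcm hw

theorem dual_sq (hinj : Function.Injective T)
    (hbb : ∀ y z, b (T y) (T z) = Q ^ 2 * b y z) (hnd : ∀ v, (∀ w, b v w = 0) → v = 0) {a : L}
    {x : W} (hx : (T - a • 1) ((T - a • 1) x) = 0) (hv : (T - a • 1) x ≠ 0)
    (hmc : ∀ c, c ≠ a → mult T c ≤ 1) : a ^ 2 = Q ^ 2 := by
  by_contra haQ
  apply hv
  apply hnd
  have htop : (⊤ : Submodule L W) ≤ LinearMap.ker (b ((T - a • 1) x)) := by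
    rw [← End.iSup_maxGenEigenspace_eq_top T]
    refine iSup_le fun c w hw => ?_
    rw [LinearMap.mem_ker]
    exact dual_zero b hinj hbb hx hmc (Or.inr haQ) hw
  intro w
  exact htop (Submodule.mem_top (x := w))

theorem dual_block (hinj : Function.Injective T)
    (hbb : ∀ y z, b (T y) (T z) = Q ^ 2 * b y z) (hnd : ∀ v, (∀ w, b v w = 0) → v = 0) {a : L}
    {x : W} (hx : (T - a • 1) ((T - a • 1) x) = 0) (hv : (T - a • 1) x ≠ 0)
    (hmc : ∀ c, c ≠ a → mult T c ≤ 1) (hma : mult T a ≤ 2)
    (hsym : (∀ y z, b y z = b z y) ∨ (∀ y z, b (T y) z = Q * b z y) ∧ a ≠ -Q) : False := by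
  have hsq := dual_sq b hinj hbb hnd hx hv hmc
  have hma2 : mult T a = 2 := le_antisymm hma (two_le_mult hx hv)
  set v := (T - a • 1) x with hvdef
  have hTv : T v = a • v := by
    have := hx
    rw [LinearMap.sub_apply, LinearMap.smul_apply, End.one_apply, sub_eq_zero] at this
    exact this
  have hTx : T x = a • x + v := by
    rw [hvdef, LinearMap.sub_apply, LinearMap.smul_apply, End.one_apply]; abel
  have ha0 : a ≠ 0 := by
    rintro rfl
    rw [zero_smul] at hTv
    exact hv (hinj (by rw [hTv, map_zero]))
  have hvv_vx : b v v = 0 ∧ b v x = 0 := by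
    rcases hsym with hs | ⟨hs, haQ⟩
    · have e1 : b v v = 0 := by
        have h1 := hbb v x
        rw [hTv, hTx] at h1
        simp only [map_smul, map_add, LinearMap.smul_apply, smul_eq_mul] at h1
        have h2 : a * b v v = 0 := by linear_combination h1 - b v x * hsq
        exact (mul_eq_zero.1 h2).resolve_left ha0
      have e2 : b v x = 0 := by
        have h1 := hbb x x
        rw [hTx] at h1
        simp only [map_smul, map_add, LinearMap.add_apply, LinearMap.smul_apply,
          smul_eq_mul] at h1
        rw [hs x v, e1] at h1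
        have h2 : 2 * a * b v x = 0 := by linear_combination h1 - b x x * hsq
        exact (mul_eq_zero.1 h2).resolve_left (mul_ne_zero two_ne_zero ha0)
      exact ⟨e1, e2⟩
    · have h : a = Q := (sq_eq_sq_iff_eq_or_eq_neg.1 hsq).resolve_right haQ
      have hQL : Q ≠ 0 := by rw [← h]; exact ha0
      have e1 : b v x = b x v := by
        have := hs v x
        rw [hTv, map_smul, LinearMap.smul_apply, smul_eq_mul, h] at this
        exact mul_left_cancel₀ hQL this
      have e2 : b v x = 0 := by
        have := hs x x
        rw [hTx, map_add, map_smul, LinearMap.add_apply, LinearMap.smul_apply, smul_eq_mul, h]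
          at this
        exact add_eq_left.1 this
      have e3 : b v v = 0 := by
        have := hs x v
        rw [hTx, map_add, map_smul, LinearMap.add_apply, LinearMap.smul_apply, smul_eq_mul,
          ← e1, e2, mul_zero, mul_zero, zero_add] at this
        exact this
      exact ⟨e3, e2⟩
  obtain ⟨hvv, hvx⟩ := hvv_vx
  apply hv
  apply hnd
  have htop : (⊤ : Submodule L W) ≤ LinearMap.ker (b v) := by
    rw [← End.iSup_maxGenEigenspace_eq_top T]
    refine iSup_le fun c => ?_
    by_cases hca : c = a
    · rw [hca]
      -- the generalised eigenspace of `a` is spanned by `x` and `v`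
      set K := T.maxGenEigenspace a ⊓ LinearMap.ker (b v) with hK
      have hxK : x ∈ K := ⟨mem_gen_of_sq hx, hvx⟩
      have hvK : v ∈ K := ⟨eigenspace_le T a (End.mem_eigenspace_iff.2 hTv), hvv⟩
      have hlt : (L ∙ v) < K := by
        refine lt_of_le_of_ne (by rw [Submodule.span_singleton_le_iff_mem]; exact hvK) ?_
        intro h
        rw [← h, Submodule.mem_span_singleton] at hxK
        obtain ⟨s, hs⟩ := hxK
        apply hv
        rw [hvdef, ← hs, map_smul, LinearMap.sub_apply, LinearMap.smul_apply, End.one_apply, hTv,
          sub_self, smul_zero]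
      have h11 := Submodule.finrank_lt_finrank_of_lt hlt
      rw [finrank_span_singleton hv] at h11
      have h12 : K = T.maxGenEigenspace a :=
        Submodule.eq_of_le_of_finrank_le inf_le_left (by
          have : finrank L (T.maxGenEigenspace a) = 2 := hma2
          omega)
      rw [← h12]
      exact inf_le_right
    · intro w hw
      rw [LinearMap.mem_ker]
      exact dual_zero b hinj hbb hx hmc (Or.inl hca) hw
  intro w
  exact htop (Submodule.mem_top (x := w))

end form

section residual

variable {L κ W : Type*} [Field L] [CharZero L] [IsAlgClosed L] [Field κ] [AddCommGroup W]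
  [Module L W] [FiniteDimensional L W] (M : integralClosure ℤ L →+* κ)

open Classical in
/-- The residual multiplicity of `z`. -/
noncomputable def nres (T : End L W) (B : Multiset L) (z : κ) : ℕ :=
  ∑ c ∈ (eigs T).filter (fun c => res M c = z), mult T c + (B.map (res M)).count z

omit [CharZero L] [IsAlgClosed L] in
theorem mult_le_nres (T : End L W) (B : Multiset L) (a : L) :
    mult T a ≤ nres M T B (res M a) := by
  classical
  by_cases ha : a ∈ eigs T
  · have h2 : mult T a ≤ ∑ c ∈ (eigs T).filter (fun c => res M c = res M a), mult T c :=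
      Finset.single_le_sum (f := fun c => mult T c) (fun _ _ => Nat.zero_le _)
        (Finset.mem_filter.2 ⟨ha, rfl⟩)
    unfold nres
    omega
  · rw [mult_zero_of_notMem ha]
    exact Nat.zero_le _

omit [CharZero L] [IsAlgClosed L] in
theorem mult_add_le_nres (T : End L W) (B : Multiset L) {a c : L} (hac : c ≠ a)
    (hr : res M c = res M a) : mult T a + mult T c ≤ nres M T B (res M a) := by
  classical
  by_cases ha : a ∈ eigs T
  · by_cases hc : c ∈ eigs T
    · have h2 : ∑ c ∈ ({a, c} : Finset L), mult T c ≤
          ∑ c ∈ (eigs T).filter (fun c => res M c = res M a), mult T c := by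
        refine Finset.sum_le_sum_of_subset_of_nonneg ?_ (fun _ _ _ => Nat.zero_le _)
        intro y hy
        rw [Finset.mem_insert, Finset.mem_singleton] at hy
        rcases hy with rfl | rfl
        · exact Finset.mem_filter.2 ⟨ha, rfl⟩
        · exact Finset.mem_filter.2 ⟨hc, hr⟩
      rw [Finset.sum_pair hac.symm] at h2
      unfold nres
      omega
    · rw [mult_zero_of_notMem hc, add_zero]
      exact mult_le_nres M T B a
  · rw [mult_zero_of_notMem ha, zero_add, ← hr]
    exact mult_le_nres M T B c

open Classical in
/-- The residual multiplicities, from the power sums. -/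
theorem nres_cast {T : End L W} (B : Multiset L) (S : Finset κ) (w : κ → κ)
    (hps : ∀ j : ℕ, 0 < j → ∑ c ∈ eigs T, (mult T c : κ) * res M c ^ j +
      (B.map (fun b => res M b ^ j)).sum = ∑ z ∈ S, w z * z ^ j) (z : κ) (hz0 : z ≠ 0) :
    (nres M T B z : κ) = if z ∈ S then w z else 0 := by
  classical
  let Y : Finset κ := insert z (S ∪ ((eigs T).image (res M) ∪ (B.map (res M)).toFinset))
  have hY1 : ∀ c ∈ eigs T, res M c ∈ Y := fun c hc => Finset.mem_insert_of_mem
    (Finset.mem_union_right _ (Finset.mem_union_left _ (Finset.mem_image_of_mem _ hc)))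
  have hY2 : (B.map (res M)).toFinset ⊆ Y := fun z hz => Finset.mem_insert_of_mem
    (Finset.mem_union_right _ (Finset.mem_union_right _ hz))
  have hY3 : S ⊆ Y := fun z hz => Finset.mem_insert_of_mem (Finset.mem_union_left _ hz)
  have hB : ∀ g : κ → κ, (B.map (fun b => g (res M b))).sum =
      ∑ z ∈ Y, ((B.map (res M)).count z : κ) * g z := by
    intro g
    have h1 : B.map (fun b => g (res M b)) = (B.map (res M)).map g := by
      rw [Multiset.map_map]; rfl
    rw [h1, Finset.sum_multiset_map_count]
    refine Finset.sum_subset_zero_on_sdiff hY2 ?_ ?_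
    · intro z hz
      rw [Finset.mem_sdiff, Multiset.mem_toFinset] at hz
      rw [Multiset.count_eq_zero_of_notMem hz.2, Nat.cast_zero, zero_mul]
    · intro z _
      rw [nsmul_eq_mul]
  have hE : ∀ g : κ → κ, ∑ c ∈ eigs T, (mult T c : κ) * g (res M c) =
      ∑ z ∈ Y, ((∑ c ∈ (eigs T).filter (fun c => res M c = z), mult T c : ℕ) : κ) * g z := by
    intro g
    rw [← Finset.sum_fiberwise_of_maps_to hY1]
    refine Finset.sum_congr rfl fun z _ => ?_
    rw [Nat.cast_sum, Finset.sum_mul]
    refine Finset.sum_congr rfl fun c hc => ?_
    rw [(Finset.mem_filter.1 hc).2]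
  have h1 := coeff_zero Y (fun z => (nres M T B z : κ) - if z ∈ S then w z else 0) ?_
  · exact sub_eq_zero.1 (h1 z (Finset.mem_insert_self _ _) hz0)
  · intro j hj
    have h2 := hps j hj
    rw [hE (fun z => z ^ j), hB (fun z => z ^ j)] at h2
    have h3 : ∑ z ∈ S, w z * z ^ j = ∑ z ∈ Y, (if z ∈ S then w z else 0) * z ^ j := by
      rw [← Finset.sum_subset hY3]
      · refine Finset.sum_congr rfl fun z hz => ?_
        rw [if_pos hz]
      · intro z _ hz
        rw [if_neg hz, zero_mul]
    rw [h3] at h2
    simp only [sub_mul, Finset.sum_sub_distrib]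
    rw [← h2, ← Finset.sum_add_distrib, sub_eq_zero]
    refine Finset.sum_congr rfl fun z _ => ?_
    rw [nres, Nat.cast_add, add_mul]

theorem nres_total (T : End L W) (B : Multiset L) (S : Finset κ) :
    ∑ z ∈ S, nres M T B z ≤ finrank L W + Multiset.card B := by
  classical
  let Y : Finset κ := S ∪ ((eigs T).image (res M) ∪ (B.map (res M)).toFinset)
  have hY1 : ∀ c ∈ eigs T, res M c ∈ Y := fun c hc =>
    (Finset.mem_union_right _ (Finset.mem_union_left _ (Finset.mem_image_of_mem _ hc)))
  have hY2 : (B.map (res M)).toFinset ⊆ Y := fun z hz =>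
    (Finset.mem_union_right _ (Finset.mem_union_right _ hz))
  have htot : ∑ z ∈ Y, nres M T B z = finrank L W + Multiset.card B := by
    have h1 : ∑ z ∈ Y, (B.map (res M)).count z = Multiset.card B := by
      have h2 := Multiset.toFinset_sum_count_eq (B.map (res M))
      rw [Multiset.card_map] at h2
      rw [← h2]
      symm
      refine Finset.sum_subset hY2 ?_
      intro z _ hz
      rw [Multiset.mem_toFinset] at hz
      exact Multiset.count_eq_zero_of_notMem hz
    have h3 : ∑ z ∈ Y, ∑ c ∈ (eigs T).filter (fun c => res M c = z), mult T c = finrank L W := by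
      rw [Finset.sum_fiberwise_of_maps_to hY1, sum_mult T]
    unfold nres
    rw [Finset.sum_add_distrib, h1, h3]
  rw [← htot]
  exact Finset.sum_le_sum_of_subset_of_nonneg Finset.subset_union_left
    (fun _ _ _ => Nat.zero_le _)

/-- Residual power sums `2 + ∑ z ^ j`: at most one eigenvalue is not simple, and it has
multiplicity at most two if its residue is `1` or `-1`. -/
theorem dual_mult {r : ℕ} [Fact r.Prime] [CharP κ r] {T : End L W} (B : Multiset L)
    (S : Finset κ) (h0 : (0 : κ) ∉ S) (h1 : (1 : κ) ∉ S)
    (hdim : finrank L W + Multiset.card B ≤ S.card + 2)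
    (hps : ∀ j : ℕ, 0 < j → ∑ c ∈ eigs T, (mult T c : κ) * res M c ^ j +
      (B.map (fun b => res M b ^ j)).sum = 2 + ∑ z ∈ S, z ^ j) (a : L) (ha : 2 ≤ mult T a) :
    (∀ c, c ≠ a → mult T c ≤ 1) ∧ (res M a ^ 2 = 1 → res M a = 1 ∧ mult T a ≤ 2) := by
  classical
  have hrp : r.Prime := Fact.out
  have hps' : ∀ j : ℕ, 0 < j → ∑ c ∈ eigs T, (mult T c : κ) * res M c ^ j +
      (B.map (fun b => res M b ^ j)).sum =
        ∑ z ∈ insert 1 S, (if z = 1 then (2 : κ) else 1) * z ^ j := by
    intro j hj
    rw [hps j hj, Finset.sum_insert h1, if_pos rfl, one_pow, mul_one]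
    congr 1
    refine Finset.sum_congr rfl fun z hz => ?_
    have hz1 : z ≠ 1 := by
      rintro rfl
      exact h1 hz
    rw [if_neg hz1, one_mul]
  have hcast := nres_cast M B (insert 1 S) (fun z => if z = 1 then (2 : κ) else 1) hps'
  set n := nres M T B with hn
  have ha' : 2 ≤ n (res M a) := le_trans ha (mult_le_nres M T B a)
  rcases hrp.eq_two_or_odd' with hr2 | hrodd
  · -- characteristic two
    subst hr2
    have h20 : (2 : κ) = 0 := by
      have := CharP.cast_eq_zero κ 2
      exact_mod_cast this
    let e : κ → ℕ := fun z => if z ∈ S then 1 else 0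
    have hpar : ∀ z, z ≠ 0 → n z % 2 = e z := by
      intro z hz0
      have h2 := hcast z hz0
      have h3 : (n z : κ) = (e z : κ) := by
        rw [h2]
        by_cases hz1 : z = 1
        · rw [hz1, if_pos (Finset.mem_insert_self _ _), if_pos rfl, h20]
          simp [e, h1]
        · rw [if_neg hz1]
          by_cases hzS : z ∈ S
          · rw [if_pos (Finset.mem_insert_of_mem hzS)]
            simp [e, hzS]
          · rw [if_neg (by
              rw [Finset.mem_insert]
              exact fun h => h.elim hz1 hzS)]
            simp [e, hzS]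
      have h4 := (CharP.natCast_eq_natCast κ 2).1 h3
      have h5 : e z < 2 := by
        simp only [e]
        split_ifs <;> omega
      rw [Nat.ModEq, Nat.mod_eq_of_lt h5] at h4
      exact h4
    have hexc : n (res M a) = e (res M a) + 2 ∧ ∀ z, z ≠ res M a → n z = e z := by
      have key : ∀ z, z ≠ res M a → n (res M a) + n z ≤ e (res M a) + e z + 2 := by
        intro z hz
        let Y : Finset κ := insert (res M a) (insert z S)
        have h2 : ∑ y ∈ Y, n y ≤ _ := nres_total M T B Y
        have h3 : ∑ y ∈ Y, e y = S.card := by
          have h4 : S ⊆ Y := fun y hy => Finset.mem_insert_of_mem (Finset.mem_insert_of_mem hy)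
          rw [← Finset.sum_subset h4 (fun y _ hy => by simp [e, hy])]
          rw [Finset.card_eq_sum_ones]
          exact Finset.sum_congr rfl fun y hy => by simp [e, hy]
        have h5 : ∀ y ∈ S, e y ≤ n y := by
          intro y hy
          have h6 := hpar y (fun h => h0 (h ▸ hy))
          have h7 := Nat.mod_le (n y) 2
          omega
        have h8 : ∑ y ∈ Y, n y = n (res M a) + n z + ∑ y ∈ (S.erase z).erase (res M a), n y := by
          have h9 : Y = insert (res M a) (insert z ((S.erase z).erase (res M a))) := by
            ext y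
            simp only [Y, Finset.mem_insert, Finset.mem_erase]
            tauto
          rw [h9, Finset.sum_insert, Finset.sum_insert, add_assoc]
          · simp
          · simp [hz.symm]
        have h8' : ∑ y ∈ Y, e y = e (res M a) + e z + ∑ y ∈ (S.erase z).erase (res M a), e y := by
          have h9 : Y = insert (res M a) (insert z ((S.erase z).erase (res M a))) := by
            ext y
            simp only [Y, Finset.mem_insert, Finset.mem_erase]
            tauto
          rw [h9, Finset.sum_insert, Finset.sum_insert, add_assoc]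
          · simp
          · simp [hz.symm]
        have h10 : ∑ y ∈ (S.erase z).erase (res M a), e y ≤
            ∑ y ∈ (S.erase z).erase (res M a), n y :=
          Finset.sum_le_sum fun y hy => h5 y
            (Finset.mem_of_mem_erase (Finset.mem_of_mem_erase hy))
        omega
      have hne : ∃ z : κ, z ≠ res M a ∧ n z ≤ n z := by
        by_cases h : res M a = 0
        · exact ⟨1, by rw [h]; exact one_ne_zero, le_refl _⟩
        · exact ⟨0, Ne.symm h, le_refl _⟩
      have hge : e (res M a) + 2 ≤ n (res M a) := by
        by_cases hz : res M a = 0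
        · have : e (res M a) = 0 := by simp [e, hz, h0]
          omega
        · have h2 := hpar _ hz
          have h3 : e (res M a) = 0 ∨ e (res M a) = 1 := by
            simp only [e]
            split_ifs
            · exact Or.inr rfl
            · exact Or.inl rfl
          omega
      have hall : ∀ z, z ≠ res M a → n z = e z := by
        intro z hz
        have h2 := key z hz
        have h3 : e z = 0 ∨ e z = 1 := by
          simp only [e]
          split_ifs
          · exact Or.inr rfl
          · exact Or.inl rfl
        by_cases hz0 : z = 0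
        · have h4 : e z = 0 := by simp [e, hz0, h0]
          omega
        · have h4 := hpar z hz0
          omega
      refine ⟨?_, hall⟩
      obtain ⟨z, hz, -⟩ := hne
      have h2 := key z hz
      rw [hall z hz] at h2
      omega
    obtain ⟨hexc1, hexc2⟩ := hexc
    have he1 : ∀ z, e z ≤ 1 := by
      intro z
      simp only [e]
      split_ifs <;> omega
    refine ⟨?_, ?_⟩
    · intro c hca
      by_cases hc : res M c = res M a
      · have h2 := mult_add_le_nres M T B hca hc
        have h3 := he1 (res M a)
        change mult T a + mult T c ≤ n (res M a) at h2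
        omega
      · have h2 := mult_le_nres M T B c
        change mult T c ≤ n (res M c) at h2
        rw [hexc2 _ hc] at h2
        exact le_trans h2 (he1 _)
    · intro hsq
      have h2 : (res M a - 1) ^ 2 = 0 := by
        have : (res M a - 1) ^ 2 = res M a ^ 2 + 1 - 2 * res M a := by ring
        rw [this, hsq, h20, zero_mul, sub_zero]
        rw [← two_mul, h20, zero_mul]
      have h3 : res M a = 1 := sub_eq_zero.1 (pow_eq_zero_iff two_ne_zero |>.1 h2)
      refine ⟨h3, ?_⟩
      have h4 := mult_le_nres M T B a
      change mult T a ≤ n (res M a) at h4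
      have h5 : e (res M a) = 0 := by rw [h3]; simp [e, h1]
      omega
  · -- odd characteristic
    let e : κ → ℕ := fun z => if z = 1 then 2 else if z ∈ S then 1 else 0
    have hr3 : 2 < r := by
      have := hrp.two_le
      rcases hrodd with ⟨c, hc⟩
      omega
    have he2 : ∀ z, e z ≤ 2 := by
      intro z
      simp only [e]
      split_ifs <;> omega
    have hge : ∀ z, z ≠ 0 → e z ≤ n z := by
      intro z hz0
      have h2 := hcast z hz0
      have h3 : (n z : κ) = (e z : κ) := by
        rw [h2]
        by_cases hz1 : z = 1
        · rw [hz1, if_pos (Finset.mem_insert_self _ _), if_pos rfl]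
          simp [e]
        · rw [if_neg hz1]
          by_cases hzS : z ∈ S
          · rw [if_pos (Finset.mem_insert_of_mem hzS)]
            simp [e, hzS, hz1]
          · rw [if_neg (by
              rw [Finset.mem_insert]
              exact fun h => h.elim hz1 hzS)]
            simp [e, hzS, hz1]
      have h4 := (CharP.natCast_eq_natCast κ r).1 h3
      have h5 : e z < r := lt_of_le_of_lt (he2 z) hr3
      rw [Nat.ModEq, Nat.mod_eq_of_lt h5] at h4
      rw [← h4]
      exact Nat.mod_le _ _
    have heq : ∀ z, n z = e z := by
      intro z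
      let Y : Finset κ := insert z (insert 1 S)
      have h2 := nres_total M T B Y
      have h3 : ∑ y ∈ Y, e y = S.card + 2 := by
        have h4 : insert 1 S ⊆ Y := fun y hy => Finset.mem_insert_of_mem hy
        rw [← Finset.sum_subset h4 (fun y _ hy => by
          rw [Finset.mem_insert] at hy
          push Not at hy
          simp [e, hy.1, hy.2]), Finset.sum_insert h1, Finset.card_eq_sum_ones, add_comm]
        congr 1
        · exact Finset.sum_congr rfl fun y hy => by
            simp [e, hy, show y ≠ 1 from fun h => h1 (h ▸ hy)]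
        · simp [e]
      have h5 : ∀ y ∈ Y, e y ≤ n y := by
        intro y _
        by_cases hy0 : y = 0
        · have : e y = 0 := by simp [e, hy0, h0]
          omega
        · exact hge y hy0
      have h6 : ∑ y ∈ Y, e y = ∑ y ∈ Y, n y :=
        le_antisymm (Finset.sum_le_sum h5) (by
          change ∑ y ∈ Y, n y ≤ _ at h2
          omega)
      have h7 := (Finset.sum_eq_sum_iff_of_le h5).1 h6 z (Finset.mem_insert_self _ _)
      exact h7.symm
    have hres1 : res M a = 1 := by
      by_contra hcon
      have h2 := ha'
      rw [heq] at h2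
      simp only [e, if_neg hcon] at h2
      split_ifs at h2 <;> omega
    have hma : n (res M a) = 2 := by
      rw [heq, hres1]; simp [e]
    refine ⟨?_, fun _ => ⟨hres1, ?_⟩⟩
    · intro c hca
      by_cases hc : res M c = res M a
      · have h2 := mult_add_le_nres M T B hca hc
        change mult T a + mult T c ≤ n (res M a) at h2
        omega
      · have h2 := mult_le_nres M T B c
        change mult T c ≤ n (res M c) at h2
        rw [heq] at h2
        rw [hres1] at hc
        simp only [e, if_neg hc] at h2
        split_ifs at h2 <;> omega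
    · have h2 := mult_le_nres M T B a
      change mult T a ≤ n (res M a) at h2
      omega

end residual

end Pool.Agent.Helper40.PC
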