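import Pool.Agent.Helper55.PC.Events
import Pool.Agent.Helper38.PC.Doom
import Pool.Agent.Helper13.PC.KillOfOcc

/-!
# Blocks C6a `good_kill` and C6b `good_fresh` (MP_cf7fa9_pr)
-/

namespace Pool.Agent.Helper55.PC

open Finset Filter
open scoped Topology ENNReal Classical

namespace C6

/-- discrete intermediate value property -/
theorem ivt (C : ℕ → ℤ) (hC : ∀ s, |C (s + 1) - C s| ≤ 1) {a b : ℕ} (hab : a ≤ b) {z : ℤ}
    (h1 : C a ≤ z) (h2 : z ≤ C b) : ∃ s, a ≤ s ∧ s ≤ b ∧ C s = z := by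
  induction b, hab using Nat.le_induction with
  | base => exact ⟨a, le_rfl, le_rfl, le_antisymm h1 h2⟩
  | succ b hab ih =>
    rcases le_or_gt z (C b) with h | h
    · obtain ⟨s, s1, s2, s3⟩ := ih h
      exact ⟨s, s1, by omega, s3⟩
    · obtain ⟨m1, m2⟩ := abs_le.1 (hC b)
      exact ⟨b + 1, by omega, le_rfl, by omega⟩

theorem cur_step (w : ℕ → Slot) (s : ℕ) : |cur w (s + 1) - cur w s| ≤ 1 := by
  rw [cur_succ, add_sub_cancel_left]
  exact abs_mv_le _

/-- distance of the class of an integer -/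
theorem le_dst {ℓ L : ℕ} [NeZero ℓ] {d : ℤ} (h1 : (L : ℤ) ≤ |d|) (h2 : |d| ≤ (ℓ : ℤ) - L)
    (hL : 0 < L) : L ≤ dst ((d : ℤ) : ZMod ℓ) := by
  have hv : (((d : ZMod ℓ).val : ℕ) : ℤ) = d % ℓ := ZMod.val_intCast d
  have hlt : (d : ZMod ℓ).val < ℓ := ZMod.val_lt _
  unfold dst
  have key : (L : ℤ) ≤ (((d : ZMod ℓ).val : ℕ) : ℤ) ∧
      (((d : ZMod ℓ).val : ℕ) : ℤ) ≤ (ℓ : ℤ) - L := by
    rw [hv]
    have hL' : (0 : ℤ) < L := by exact_mod_cast hL
    rcases le_or_gt 0 d with h | h
    · rw [abs_of_nonneg h] at h1 h2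
      rw [Int.emod_eq_of_lt h (by omega)]
      exact ⟨h1, h2⟩
    · rw [abs_of_neg h] at h1 h2
      have : d % (ℓ : ℤ) = d + ℓ := by
        rw [← Int.add_emod_right, Int.emod_eq_of_lt (by omega) (by omega)]
      rw [this]
      constructor <;> omega
  have a1 : L ≤ (d : ZMod ℓ).val := by exact_mod_cast key.1
  have a2 : (d : ZMod ℓ).val + L ≤ ℓ := by
    have := key.2
    omega
  omega

/-- reduction modulo `k` of the cell number -/
theorem cast_cell {k L : ℕ} [NeZero k] [NeZero L] (J : ℤ) (e : ℕ) :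
    ((((J : ZMod k).val * (12 * L) + e : ℕ)) : Site k L) = ((J * (12 * L) + e : ℤ) : Site k L) := by
  have hv : ((((J : ZMod k)).val : ℕ) : ℤ) = J % k := ZMod.val_intCast J
  have h1 : ((((J : ZMod k).val * (12 * L) + e : ℕ)) : Site k L) =
      ((((((J : ZMod k)).val : ℕ) : ℤ) * (12 * L) + e : ℤ) : Site k L) := by
    push_cast; ring
  rw [h1, hv, ← sub_eq_zero, ← Int.cast_sub, ZMod.intCast_zmod_eq_zero_iff_dvd]
  refine ⟨-(J / k), ?_⟩
  have h2 := Int.emod_add_mul_ediv J k
  push_cast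
  linear_combination (12 * (L : ℤ)) * h2

end C6

section
variable {k r L : ℕ} [NeZero k] [NeZero L] {R U : Type} [Group R] [Fintype R]
    [AddCommGroup U] [Fintype U] [DistribMulAction R U] {s q : R} {u : Idx k r → U} {W : Pat}

open C6 in
theorem good_kill (hk : 3 ≤ k) (hr : 1 ≤ r) (hrL : r ≤ L) (hG : GW s q u W)
    (p0 : Site k L → ZMod 2) (c0 : Site k L) (ρ0 : R) (t : ℕ) (w : ℕ → Slot)
    (hrun : RunOK ((k - 2) * (12 * L)) ((2 ^ r + 3) * (12 * L)) t w)
    (hserved : ∀ y : Site k L, Served2 W c0 y (y + ((4 * L : ℕ) : Site k L)) L t w)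
    (ψ : (Site k L × Lbl k r → U) →+ ZMod 2) (hψ : ψ ≠ 0) : Killed s q u p0 c0 ρ0 ψ t w := by
  have hL : 0 < L := Nat.pos_of_ne_zero (NeZero.ne L)
  have hL' : (0 : ℤ) < L := by exact_mod_cast hL
  have hk' : (3 : ℤ) ≤ k := by exact_mod_cast hk
  have hr' : (1 : ℤ) ≤ r := by exact_mod_cast hr
  have hrL' : (r : ℤ) ≤ L := by exact_mod_cast hrL
  have hell : ((k * (12 * L) : ℕ) : ℤ) = (k : ℤ) * (12 * L) := by push_cast; ring
  have hell3 : (36 : ℤ) * L ≤ (k : ℤ) * (12 * L) := by nlinarith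
  -- a lamp seen by `ψ`
  obtain ⟨ω, v, hv⟩ : ∃ (ω : Site k L × Lbl k r) (v : U), ψ (Pi.single ω v) ≠ 0 := by
    by_contra h
    push Not at h
    apply hψ
    refine DFunLike.ext _ _ fun g => ?_
    have hg : g = ∑ ω, Pi.single ω (g ω) := (Finset.univ_sum_single g).symm
    rw [hg, map_sum, AddMonoidHom.zero_apply]
    exact Finset.sum_eq_zero fun ω _ => h ω _
  obtain ⟨x, f⟩ := ω
  set X : ℤ := (((x - c0).val : ℕ) : ℤ) with hX
  have hXc : ((X : ℤ) : Site k L) = x - c0 := by
    rw [hX, Int.cast_natCast, ZMod.natCast_zmod_val]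
  -- position of the cursor
  have hpos : ∀ n : ℕ, ∀ d : ℤ, cur w n - X = d → c0 + (cur w n : Site k L) = x + (d : Site k L) := by
    intro n d hd
    have : (cur w n : Site k L) = ((X + d : ℤ) : Site k L) := by rw [← hd]; ring_nf
    rw [this, Int.cast_add, hXc]
    ring
  have hpos' : ∀ n : ℕ, ∀ z : ℤ, c0 + (cur w n : Site k L) - (x + (z : Site k L)) =
      ((cur w n - X - z : ℤ) : Site k L) := by
    intro n z
    rw [hpos n _ rfl]
    push_cast
    ring
  obtain ⟨s0, s1, h01, h1t, hup, hdd⟩ := hrun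
  obtain ⟨J, a, b, hs0a, hab, hbs1, ha1, ha2, hb, hmid⟩ := doom k L r (2 ^ r - 1) hk hr hrL
    (fun n => cur w n) (cur_step w) X (fun n j => (code r (labs x f (lamp p0 c0 w n) j) : ℕ))
    (fun n j => by
      have := (code r (labs x f (lamp p0 c0 w n) j)).isLt
      omega)
    (by
      intro n j hne
      have hne' : labs x f (lamp p0 c0 w (n + 1)) j ≠ labs x f (lamp p0 c0 w n) j := by
        intro h
        exact hne (by rw [h])
      obtain ⟨v', hv'⟩ := Function.ne_iff.1 hne'
      have hsite : c0 + (cur w n : Site k L) = blk k r L x j v' := by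
        by_contra hsite
        apply hv'
        simp only [labs, lamp]
        rw [if_neg (fun h => hsite h.2), add_zero]
      have h3 : ((cur w n - X - (j.val * (12 * L) + v' : ℤ) : ℤ) : Site k L) = 0 := by
        have h4 := hpos' n (j.val * (12 * L) + (v' : ℕ) : ℤ)
        rw [← h4, hsite, blk]
        push_cast
        ring
      rw [ZMod.intCast_zmod_eq_zero_iff_dvd] at h3
      obtain ⟨m, hm⟩ := h3
      refine ⟨(j.val : ℤ) + k * m, ?_, ?_, ?_⟩
      · push_cast
        rw [ZMod.natCast_zmod_val, ZMod.natCast_self, zero_mul, add_zero]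
      · push_cast at hm
        have : (0 : ℤ) ≤ ((v' : ℕ) : ℤ) := Int.natCast_nonneg _
        linarith
      · push_cast at hm
        have : ((v' : ℕ) : ℤ) < r := by exact_mod_cast v'.isLt
        linarith)
    s0 s1 h01
    (by
      rw [hup]
      have : ((2 ^ r - 1 : ℕ) : ℤ) = 2 ^ r - 1 := by
        rw [Nat.cast_sub Nat.one_le_two_pow]; push_cast; ring
      rw [this]
      push_cast
      apply le_of_eq; ring)
    (by
      intro u' v' h1 h2 h3
      have := hdd u' v' h1 h2 h3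
      rw [Nat.cast_mul, Nat.cast_sub (by omega)] at this
      push_cast at this
      exact this)
  -- the test points
  have hy : x + tpt k L (J : ZMod k) false = x + ((J * (12 * L) + 4 * L : ℤ) : Site k L) := by
    unfold tpt
    have := cast_cell (k := k) (L := L) J (4 * L)
    simp only [Bool.false_eq_true, if_false]
    rw [this]
    push_cast
    ring
  have hy' : x + tpt k L (J : ZMod k) true = x + ((J * (12 * L) + 8 * L : ℤ) : Site k L) := by
    unfold tpt
    have := cast_cell (k := k) (L := L) J (8 * L)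
    simp only [if_true]
    rw [this]
    push_cast
    ring
  have hyy : x + tpt k L (J : ZMod k) false + ((4 * L : ℕ) : Site k L) =
      x + tpt k L (J : ZMod k) true := by
    rw [hy, hy']
    push_cast
    ring
  obtain ⟨sy, hsy1, hsy2, hsy3⟩ := ivt (fun n => cur w n) (cur_step w) hab.le
    (z := X + (J * (12 * L) + 4 * L)) (by linarith) (by linarith)
  obtain ⟨sm, hsm1, hsm2, hsm3⟩ := ivt (fun n => cur w n) (cur_step w) hsy2
    (z := X + (J * (12 * L) + 8 * L)) (by linarith) (by linarith)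
  have hnz : NeZero (k * (12 * L)) := inferInstance
  obtain ⟨σ, hσa, hσb, hσy, hσo⟩ := hserved (x + tpt k L (J : ZMod k) false) a sy sm sm b hsy1 hsm1
    le_rfl hsm2 (hbs1.trans h1t)
    (by
      rw [hy, hpos']
      apply le_dst _ _ hL
      · rw [abs_of_neg (by linarith)]; linarith
      · rw [abs_of_neg (by linarith), hell]; linarith)
    (by
      rw [hyy, hy', hpos']
      apply le_dst _ _ hL
      · rw [abs_of_neg (by linarith)]; linarith
      · rw [abs_of_neg (by linarith), hell]; linarith)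
    (by
      rw [hy]
      exact hpos sy _ (by linarith))
    (by
      rw [hy, hpos']
      apply le_dst _ _ hL
      · rw [abs_of_pos (by linarith)]; linarith
      · rw [abs_of_pos (by linarith), hell]; linarith)
    (by
      rw [hyy, hy']
      exact hpos sm _ (by linarith))
    (by
      rw [hyy, hy', hpos']
      apply le_dst _ _ hL
      · rw [abs_of_pos (by linarith)]; linarith
      · rw [abs_of_pos (by linarith), hell]; linarith)
  have hWn := W.pos
  -- `a` is not a test time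
  have hne : a ≠ σ := by
    rintro rfl
    have hbad : ∀ z : ℤ, |cur w a - X - z| ≤ (k * (12 * L) : ℕ) - L → (L : ℤ) ≤ |cur w a - X - z| →
        c0 + (cur w a : Site k L) ≠ x + (z : Site k L) := by
      intro z h1 h2 h3
      have h4 := le_dst (ℓ := k * (12 * L)) h2 h1 hL
      rw [← hpos', h3, sub_self] at h4
      unfold dst at h4
      rw [ZMod.val_zero] at h4
      omega
    rcases hσy with h | h
    · rw [hy] at h
      refine hbad _ ?_ ?_ h
      · rw [abs_of_neg (by linarith), hell]; linarith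
      · rw [abs_of_neg (by linarith)]; linarith
    · rw [hyy, hy'] at h
      refine hbad _ ?_ ?_ h
      · rw [abs_of_neg (by linarith), hell]; linarith
      · rw [abs_of_neg (by linarith)]; linarith
  have hbadl : badLbl (labs x f (lamp p0 c0 w σ)) (J : ZMod k) := by
    have h1 := (hmid σ (lt_of_le_of_ne hσa hne) (by omega)).2
    unfold badLbl
    rw [Fin.le_def]
    have h2 : ((J - 1 : ℤ) : ZMod k) = (J : ZMod k) - 1 := by push_cast; ring
    rw [h2] at h1
    exact h1
  rcases hσy with h | h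
  · exact kill_of_occ hG p0 c0 ρ0 w σ hσo x f J false h hbadl ψ v hv t (by omega)
  · exact kill_of_occ hG p0 c0 ρ0 w σ hσo x f J true (by rw [h, hyy]) hbadl ψ v hv t (by omega)

open C6 in
theorem good_fresh (hk : 3 ≤ k) (hkr : 3 * k ≤ 2 ^ r) (c0 : Site k L) (t : ℕ) (w : ℕ → Slot)
    (hrun : RunOK ((k - 2) * (12 * L)) ((2 ^ r + 3) * (12 * L)) t w)
    (hserved : ∀ y : Site k L, Served2 patE c0 y y L t w)
    (φ : (Site k L → ZMod 2) →+ ZMod 2) (hφ : φ ≠ 0) : Fresh c0 φ t w := by
  have hL : 0 < L := Nat.pos_of_ne_zero (NeZero.ne L)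
  have hL' : (0 : ℤ) < L := by exact_mod_cast hL
  have hk' : (3 : ℤ) ≤ k := by exact_mod_cast hk
  have hell : ((k * (12 * L) : ℕ) : ℤ) = (k : ℤ) * (12 * L) := by push_cast; ring
  have hell3 : (36 : ℤ) * L ≤ (k : ℤ) * (12 * L) := by nlinarith
  obtain ⟨y, hy⟩ : ∃ y : Site k L, φ (Pi.single y 1) ≠ 0 := by
    by_contra h
    push Not at h
    apply hφ
    refine DFunLike.ext _ _ fun g => ?_
    have hg : g = ∑ ω, Pi.single ω (g ω) := (Finset.univ_sum_single g).symm
    rw [hg, map_sum, AddMonoidHom.zero_apply]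
    refine Finset.sum_eq_zero fun ω _ => ?_
    have h2 : ∀ z : ZMod 2, z = 0 ∨ z = 1 := by decide
    rcases h2 (g ω) with h3 | h3
    · rw [h3, Pi.single_zero, map_zero]
    · rw [h3]; exact h ω
  obtain ⟨s0, s1, h01, h1t, hup, -⟩ := hrun
  have hup' : cur w s0 + 3 * ((k : ℤ) * (12 * L)) ≤ cur w s1 := by
    have h1 : ((3 * k : ℕ) : ℤ) ≤ ((2 ^ r : ℕ) : ℤ) := by exact_mod_cast hkr
    have h2 : (((2 ^ r + 3) * (12 * L) : ℕ) : ℤ) = (((2 ^ r : ℕ) : ℤ) + 3) * (12 * L) := by
      push_cast; ring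
    rw [h2] at hup
    push_cast at h1 hup
    nlinarith
  -- the lift
  set ℓ : ℤ := (k : ℤ) * (12 * L) with hℓ
  have hℓpos : 0 < ℓ := by linarith
  set A : ℤ := cur w s0 + (k : ℤ) * (6 * L) with hA
  set v : ℤ := (((y - c0).val : ℕ) : ℤ) with hv
  have hvc : ((v : ℤ) : Site k L) = y - c0 := by
    rw [hv, Int.cast_natCast, ZMod.natCast_zmod_val]
  set Y : ℤ := A + (v - A) % ℓ with hY
  have hYc : ((Y : ℤ) : Site k L) = y - c0 := by
    have h1 : Y = v + ℓ * (-((v - A) / ℓ)) := by
      have := Int.emod_add_mul_ediv (v - A) ℓ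
      rw [hY]; linear_combination this
    have h2 : ((ℓ : ℤ) : Site k L) = 0 := by
      rw [ZMod.intCast_zmod_eq_zero_iff_dvd, hell]
    rw [h1, Int.cast_add, Int.cast_mul, h2, zero_mul, add_zero, hvc]
  have hY1 : A ≤ Y := by
    have := Int.emod_nonneg (v - A) hℓpos.ne'
    linarith
  have hY2 : Y < A + ℓ := by
    have := Int.emod_lt_of_pos (v - A) hℓpos
    linarith
  have hhalf : 2 * ((k : ℤ) * (6 * L)) = ℓ := by rw [hℓ]; ring
  set hf : ℤ := (k : ℤ) * (6 * L) with hhf
  have hpos : ∀ n : ℕ, ∀ d : ℤ, cur w n = Y + d →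
      c0 + (cur w n : Site k L) - y = ((d : ℤ) : Site k L) := by
    intro n d hd
    rw [hd, Int.cast_add, hYc]
    ring
  obtain ⟨t1, p1, p2, p3⟩ := ivt (fun n => cur w n) (cur_step w) h01 (z := Y + (-hf))
    (by linarith) (by linarith)
  obtain ⟨t2, q1, q2, q3⟩ := ivt (fun n => cur w n) (cur_step w) p2 (z := Y + 0)
    (by linarith) (by linarith)
  obtain ⟨t3, r1, r2, r3⟩ := ivt (fun n => cur w n) (cur_step w) q2 (z := Y + hf)
    (by linarith) (by linarith)
  obtain ⟨t4, u1, u2, u3⟩ := ivt (fun n => cur w n) (cur_step w) r2 (z := Y + ℓ)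
    (by linarith) (by linarith)
  obtain ⟨t5, v1, v2, v3⟩ := ivt (fun n => cur w n) (cur_step w) u2 (z := Y + (ℓ + hf))
    (by linarith) (by linarith)
  have hℓc : ((ℓ : ℤ) : Site k L) = 0 := by
    rw [ZMod.intCast_zmod_eq_zero_iff_dvd, hell]
  have hdf : L ≤ dst ((hf : ℤ) : Site k L) := by
    apply le_dst _ _ hL
    · rw [abs_of_pos (by linarith)]; linarith
    · rw [abs_of_pos (by linarith), hell]; linarith
  have hdf' : L ≤ dst ((-hf : ℤ) : Site k L) := by
    apply le_dst _ _ hL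
    · rw [abs_of_neg (by linarith)]; linarith
    · rw [abs_of_neg (by linarith), hell]; linarith
  obtain ⟨σ, hσa, hσb, hσy, hσo⟩ := hserved y t1 t2 t3 t4 t5 q1 r1 u1 v1 (v2.trans h1t)
    (by rw [hpos t1 _ p3]; exact hdf') (by rw [hpos t1 _ p3]; exact hdf')
    (by
      have := hpos t2 _ q3
      rw [Int.cast_zero, sub_eq_zero] at this
      exact this)
    (by rw [hpos t3 _ r3]; exact hdf)
    (by
      have := hpos t4 _ u3
      rw [hℓc, sub_eq_zero] at this
      exact this)
    (by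
      rw [hpos t5 _ v3, Int.cast_add, hℓc, zero_add]; exact hdf)
  have hσy' : c0 + (cur w σ : Site k L) = y := by
    rcases hσy with h | h <;> exact h
  have hn : patE.n = 1 := rfl
  rw [hn] at hσb
  refine ⟨σ, by omega, ?_, ?_⟩
  · exact hσo 0 (by rw [hn]; exact one_pos)
  · rw [hσy']; exact hy

end

end Pool.Agent.Helper55.PC
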