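import Pool.Agent.Helper40.PC.Res

/-!
# The order of `q` modulo `r` (helper40)
-/

open Module Polynomial

namespace Pool.Agent.Helper40.PC

open Pool.Agent.Helper73.KT

/-- The order of `q = |k|` modulo `r`. -/
noncomputable def ord (k : Type) (r : ℕ) : ℕ := orderOf (Nat.card k : ZMod r)

theorem ord_pos {k : Type} [Field k] [Finite k] {r : ℕ} [Fact r.Prime] (hr : (r : k) ≠ 0) :
    0 < ord k r := by
  have hrp : r.Prime := Fact.out
  obtain ⟨p, hp⟩ := CharP.exists k
  have hpp : p.Prime := CharP.char_is_prime k p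
  have := Fintype.ofFinite k
  obtain ⟨n, -, hn⟩ := FiniteField.card k p
  have hne : (Nat.card k : ZMod r) ≠ 0 := by
    intro h
    rw [ZMod.natCast_eq_zero_iff, Nat.card_eq_fintype_card, hn] at h
    have h1 : r = p := (Nat.prime_dvd_prime_iff_eq hrp hpp).1 (hrp.dvd_of_dvd_pow h)
    apply hr
    rw [h1]
    exact CharP.cast_eq_zero k p
  have h1 : orderOf ((Units.mk0 _ hne : (ZMod r)ˣ) : ZMod r) = orderOf (Units.mk0 _ hne) :=
    orderOf_units
  have h2 : 0 < orderOf (Units.mk0 _ hne : (ZMod r)ˣ) := orderOf_pos _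
  rw [← h1] at h2
  exact h2

/-- The cardinality of an extension whose degree is divisible by `ord k r` is `1` modulo `r`. -/
theorem card_eq_one {k : Type} [Field k] [Finite k] {r : ℕ} {κ : Type*} [Field κ]
    [CharP κ r] {K : Type} [Field K] [Fintype K] [Algebra k K] (h : ord k r ∣ finrank k K) :
    (Fintype.card K : κ) = 1 := by
  have := Fintype.ofFinite k
  obtain ⟨j, hj⟩ := h
  have h1 : (Nat.card k : ZMod r) ^ ord k r = 1 := pow_orderOf_eq_one _
  have h2 : (Nat.card k : κ) ^ ord k r = 1 := by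
    have h3 := congrArg (ZMod.castHom (dvd_refl r) κ) h1
    rw [map_pow, map_natCast, map_one] at h3
    exact h3
  rw [Module.card_eq_pow_finrank (K := k) (V := K), hj, Nat.cast_pow, pow_mul,
    ← Nat.card_eq_fintype_card, h2, one_pow]

theorem irreducible_of_comp {k : Type} [Field k] {f g : k[X]} (h : Irreducible (f.comp g)) :
    Irreducible f := by
  have hdeg : 0 < (f.comp g).natDegree := h.natDegree_pos
  rw [natDegree_comp] at hdeg
  have hf : 0 < f.natDegree := Nat.pos_of_mul_pos_right hdeg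
  have hg : 0 < g.natDegree := Nat.pos_of_mul_pos_left hdeg
  refine ⟨fun hu => ?_, fun a b hab => ?_⟩
  · rw [natDegree_eq_zero_of_isUnit hu] at hf
    exact lt_irrefl _ hf
  · have key : ∀ c : k[X], c ≠ 0 → IsUnit (c.comp g) → IsUnit c := by
      intro c hc hu
      have h1 : (c.comp g).natDegree = 0 := natDegree_eq_zero_of_isUnit hu
      rw [natDegree_comp] at h1
      have h2 : c.natDegree = 0 := by
        rcases Nat.mul_eq_zero.1 h1 with h2 | h2
        · exact h2
        · omega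
      rw [eq_C_of_natDegree_eq_zero h2] at hc ⊢
      exact isUnit_C.2 (isUnit_iff_ne_zero.2 fun h3 => hc (by rw [h3, C_0]))
    have hf0 : f ≠ 0 := fun h0 => by rw [h0, natDegree_zero] at hf; exact lt_irrefl _ hf
    have ha0 : a ≠ 0 := fun h0 => hf0 (by rw [hab, h0, zero_mul])
    have hb0 : b ≠ 0 := fun h0 => hf0 (by rw [hab, h0, mul_zero])
    have h1 : f.comp g = a.comp g * b.comp g := by rw [hab, mul_comp]
    rcases h.isUnit_or_isUnit h1 with h2 | h2
    · exact Or.inl (key a ha0 h2)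
    · exact Or.inr (key b hb0 h2)

theorem not_integral_inv {L : Type} [Field L] [CharZero L] {r : ℕ} (hr : r.Prime)
    (h : IsIntegral ℤ (1 / (r : L))) : False := by
  have h1 : IsIntegral ℤ (algebraMap ℚ L (1 / (r : ℚ))) := by
    rw [map_div₀, map_one, map_natCast]
    exact h
  have h2 : IsIntegral ℤ (1 / (r : ℚ)) :=
    (isIntegral_algebraMap_iff (algebraMap ℚ L).injective).1 h1
  obtain ⟨n, hn⟩ := IsIntegrallyClosed.isIntegral_iff.1 h2
  have hr0 : (r : ℚ) ≠ 0 := Nat.cast_ne_zero.2 hr.ne_zero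
  have h3 : ((n * r : ℤ) : ℚ) = ((1 : ℤ) : ℚ) := by
    push_cast
    have h4 : ((n : ℤ) : ℚ) = 1 / (r : ℚ) := hn
    rw [h4, one_div, inv_mul_cancel₀ hr0]
  have h5 : n * (r : ℤ) = 1 := by exact_mod_cast h3
  have h6 : (r : ℤ) ∣ 1 := ⟨n, by rw [← h5]; ring⟩
  have h7 : r ∣ 1 := by exact_mod_cast h6
  exact hr.one_lt.ne' (Nat.dvd_one.1 h7)

end Pool.Agent.Helper40.PC
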