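import Mathlib

/-!
# Power sums of roots, and roots of irreducible polynomials in extensions of finite fields (helper40)
-/

open Module Polynomial

namespace Pool.Agent.Helper40.PC

section roots

variable {κ : Type*} [Field κ] [IsAlgClosed κ]

open Classical in
/-- The `d`-th roots of `v`. -/
noncomputable def rts (d : ℕ) (v : κ) : Finset κ := (nthRoots d v).toFinset

theorem mem_rts {d : ℕ} (hd : 0 < d) {v z : κ} : z ∈ rts d v ↔ z ^ d = v := by
  classical
  rw [rts, Multiset.mem_toFinset, mem_nthRoots hd]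

theorem exists_prim {d : ℕ} (hd : (d : κ) ≠ 0) : ∃ ζ : κ, IsPrimitiveRoot ζ d := by
  have : NeZero (d : κ) := ⟨hd⟩
  exact HasEnoughRootsOfUnity.exists_primitiveRoot κ d

theorem card_rts {d : ℕ} (hd : (d : κ) ≠ 0) {v : κ} (hv : v ≠ 0) : (rts d v).card = d := by
  classical
  have hd0 : 0 < d := Nat.pos_of_ne_zero fun h => hd (by rw [h, Nat.cast_zero])
  obtain ⟨ζ, hζ⟩ := exists_prim hd
  obtain ⟨z, hz⟩ := IsAlgClosed.exists_pow_nat_eq v hd0
  rw [rts, Multiset.toFinset_card_of_nodup (hζ.nthRoots_nodup hv), hζ.card_nthRoots,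
    if_pos ⟨z, hz⟩]

theorem sum_rts {d : ℕ} (hd : (d : κ) ≠ 0) {v : κ} (hv : v ≠ 0) (j : ℕ) :
    ∑ z ∈ rts d v, z ^ j = if d ∣ j then (d : κ) * v ^ (j / d) else 0 := by
  classical
  have hd0 : 0 < d := Nat.pos_of_ne_zero fun h => hd (by rw [h, Nat.cast_zero])
  split_ifs with h
  · obtain ⟨i, rfl⟩ := h
    rw [Nat.mul_div_cancel_left i hd0]
    have h1 : ∀ z ∈ rts d v, z ^ (d * i) = v ^ i := by
      intro z hz
      rw [pow_mul, (mem_rts hd0).1 hz]
    rw [Finset.sum_congr rfl h1, Finset.sum_const, card_rts hd hv, nsmul_eq_mul]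
  · obtain ⟨ζ, hζ⟩ := exists_prim hd
    have hζ0 : ζ ≠ 0 := hζ.ne_zero hd0.ne'
    have h1 : ∑ z ∈ rts d v, z ^ j = ζ ^ j * ∑ z ∈ rts d v, z ^ j := by
      rw [Finset.mul_sum]
      symm
      refine Finset.sum_nbij' (fun z => ζ * z) (fun z => ζ⁻¹ * z) ?_ ?_ ?_ ?_ ?_
      · intro z hz
        rw [mem_rts hd0] at hz ⊢
        rw [mul_pow, hζ.pow_eq_one, one_mul, hz]
      · intro z hz
        rw [mem_rts hd0] at hz ⊢
        rw [mul_pow, inv_pow, hζ.pow_eq_one, inv_one, one_mul, hz]
      · intro z _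
        rw [inv_mul_cancel_left₀ hζ0]
      · intro z _
        rw [mul_inv_cancel_left₀ hζ0]
      · intro z _
        rw [mul_pow]
    have h2 : ζ ^ j ≠ 1 := fun h3 => h (hζ.dvd_of_pow_eq_one j h3)
    have h3 : (1 - ζ ^ j) * ∑ z ∈ rts d v, z ^ j = 0 := by
      rw [sub_mul, one_mul, ← h1, sub_self]
    rcases mul_eq_zero.1 h3 with h4 | h4
    · exact absurd (sub_eq_zero.1 h4).symm h2
    · exact h4

end roots

section finite

variable {k K : Type} [Field k] [Finite k] [Field K] [Fintype K] [Algebra k K]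

open Classical in
/-- The number of roots of an irreducible polynomial in an extension of a finite field. -/
theorem card_roots_irreducible {f : k[X]} (hf : Irreducible f) :
    (Finset.univ.filter (fun u : K => aeval u f = 0)).card =
      if f.natDegree ∣ finrank k K then f.natDegree else 0 := by
  have hf0 : f ≠ 0 := hf.ne_zero
  have : Fact (Irreducible f) := ⟨hf⟩
  have hfin : finrank k (AdjoinRoot f) = f.natDegree := finrank_quotient_span_eq_natDegree
  have e1 : {x // x ∈ f.aroots K} ≃ {x // x ∈ Finset.univ.filter (fun u : K => aeval u f = 0)} :=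
    Equiv.subtypeEquivRight fun x => by
      rw [mem_aroots, Finset.mem_filter]
      exact ⟨fun h => ⟨Finset.mem_univ _, h.2⟩, fun h => ⟨hf0, h.2⟩⟩
  have e := (AdjoinRoot.equiv K k f hf0).trans e1
  have h1 : (Finset.univ.filter (fun u : K => aeval u f = 0)).card =
      Nat.card (AdjoinRoot f →ₐ[k] K) := by
    rw [Nat.card_congr e, Nat.card_eq_fintype_card, Fintype.card_coe]
  rw [h1]
  split_ifs with h
  · rw [FiniteField.natCard_algHom_of_finrank_dvd (by rw [hfin]; exact h), hfin]
  · have h2 : IsEmpty (AdjoinRoot f →ₐ[k] K) := by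
      rw [← not_nonempty_iff, FiniteField.nonempty_algHom_iff_finrank_dvd, hfin]
      exact h
    exact Nat.card_of_isEmpty

end finite

end Pool.Agent.Helper40.PC
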