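import Pool.Agent.Helper40.PC.Core
import Pool.Agent.Helper40.PC.Roots
import Pool.Agent.Helper73.KT.Part

/-!
# Residual traces (helper40)
-/

open Module Polynomial

namespace Pool.Agent.Helper40.PC

open Pool.Agent.Helper73.KT

section

variable {L κ W : Type*} [Field L] [CharZero L] [IsAlgClosed L] [Field κ] [AddCommGroup W]
  [Module L W] [FiniteDimensional L W] (M : integralClosure ℤ L →+* κ)

omit [CharZero L] [IsAlgClosed L] in
theorem res_neg {x : L} (hx : IsIntegral ℤ x) : res M (-x) = - res M x := by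
  rw [res_eq M hx, res_eq M hx.neg, ← map_neg]
  rfl

omit [CharZero L] [IsAlgClosed L] in
theorem res_sub {x y : L} (hx : IsIntegral ℤ x) (hy : IsIntegral ℤ y) :
    res M (x - y) = res M x - res M y := by
  rw [sub_eq_add_neg, res_add M hx hy.neg, res_neg M hy, ← sub_eq_add_neg]

omit [CharZero L] [IsAlgClosed L] in
theorem res_multiset {B : Multiset L} (hB : ∀ b ∈ B, IsIntegral ℤ b) (j : ℕ) :
    IsIntegral ℤ (B.map (fun b => b ^ j)).sum ∧
      res M (B.map (fun b => b ^ j)).sum = (B.map (fun b => res M b ^ j)).sum := by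
  induction B using Multiset.induction_on with
  | empty =>
    simp only [Multiset.map_zero, Multiset.sum_zero]
    exact ⟨isIntegral_zero, by simpa using res_natCast M 0⟩
  | cons b B ih =>
    have hb := hB b (Multiset.mem_cons_self b B)
    obtain ⟨h1, h2⟩ := ih (fun c hc => hB c (Multiset.mem_cons_of_mem hc))
    simp only [Multiset.map_cons, Multiset.sum_cons]
    exact ⟨(hb.pow j).add h1, by rw [res_add M (hb.pow j) h1, res_pow M hb, h2]⟩

/-- The residual power sums of the eigenvalues. -/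
theorem res_trace {T : End L W} (hint : ∀ c ∈ eigs T, IsIntegral ℤ c) {B : Multiset L}
    (hB : ∀ b ∈ B, IsIntegral ℤ b) (j : ℕ) {x : L} (hx : IsIntegral ℤ x)
    (h : LinearMap.trace L W (T ^ j) + (B.map (fun b => b ^ j)).sum = x) :
    ∑ c ∈ eigs T, (mult T c : κ) * res M c ^ j + (B.map (fun b => res M b ^ j)).sum =
      res M x := by
  obtain ⟨h1, h2⟩ := res_multiset M hB j
  have h3 : IsIntegral ℤ (∑ c ∈ eigs T, (mult T c : L) * c ^ j) :=
    IsIntegral.sum _ fun c hc => (int_nat (mult T c)).mul ((hint c hc).pow j)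
  rw [← h, trace_pow, res_add M h3 h1, h2,
    res_sum M _ _ (fun c hc => (int_nat (mult T c)).mul ((hint c hc).pow j))]
  congr 1
  refine Finset.sum_congr rfl fun c hc => ?_
  rw [res_mul M (int_nat (mult T c)) ((hint c hc).pow j), res_natCast, res_pow M (hint c hc)]

end

section

variable {L κ : Type*} [Field L] [Field κ] {r : ℕ} [Fact r.Prime] [CharP κ r]
  (M : integralClosure ℤ L →+* κ)

omit [CharP κ r] in
theorem int_root {x : L} {e : ℕ} (h : x ^ r ^ e = 1) : IsIntegral ℤ x := by
  have h1 : IsIntegral ℤ (x ^ r ^ e) := by rw [h]; exact isIntegral_one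
  exact h1.of_pow (pow_pos (Fact.out : r.Prime).pos e)

theorem res_root {x : L} {e : ℕ} (h : x ^ r ^ e = 1) : res M x = 1 := by
  apply eq_one_of_pow (r := r) (e := e)
  rw [← res_pow M (int_root h), h]
  simpa using res_natCast M 1

/-- The residue of a twisted sum. -/
theorem res_twist {X : Type*} [Fintype X] (p : X → Prop) [DecidablePred p] (χ : X → L) (e : ℕ)
    (h1 : ∀ x, p x → χ x ^ r ^ e = 1) (h0 : ∀ x, ¬ p x → χ x = 0) (w : X → L)
    (hw : ∀ x, IsIntegral ℤ (w x)) :
    IsIntegral ℤ (∑ x, χ x * w x) ∧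
      res M (∑ x, χ x * w x) = ∑ x ∈ Finset.univ.filter (fun x => p x), res M (w x) := by
  have hχ : ∀ x, IsIntegral ℤ (χ x) := by
    intro x
    by_cases hx : p x
    · exact int_root (h1 x hx)
    · rw [h0 x hx]; exact isIntegral_zero
  refine ⟨IsIntegral.sum _ fun x _ => (hχ x).mul (hw x), ?_⟩
  rw [res_sum M _ _ (fun x _ => (hχ x).mul (hw x)), Finset.sum_filter]
  refine Finset.sum_congr rfl fun x _ => ?_
  rw [res_mul M (hχ x) (hw x)]
  split_ifs with hx
  · rw [res_root M (h1 x hx), one_mul]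
  · rw [h0 x hx]
    have : res M (0 : L) = 0 := by simpa using res_natCast M 0
    rw [this, zero_mul]

end

section

variable {L V : Type*} [Field L] [CharZero L] [IsAlgClosed L] [AddCommGroup V] [Module L V]
  [FiniteDimensional L V]

omit [CharZero L] [IsAlgClosed L] in
/-- The eigenvalues of a power of `Fr` on a stable subspace are integral. -/
theorem eigs_integral {Fr : End L V} [IsAlgClosed L]
    (hint : ∀ a : L, Fr.HasEigenvalue a → IsIntegral ℤ a) {n : ℕ} {W : Submodule L V}
    (hW : ∀ x ∈ W, (Fr ^ n) x ∈ W) :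
    ∀ c ∈ eigs ((Fr ^ n).restrict hW : End L W), IsIntegral ℤ c := by
  intro c hc
  let T : End L W := (Fr ^ n).restrict hW
  have h1 : T.HasEigenvalue c := by
    rw [mem_eigs] at hc
    have h2 : T.HasUnifEigenvalue c ⊤ := hc
    exact h2.lt (by norm_num)
  obtain ⟨y, hy⟩ := h1.exists_hasEigenvector
  have hy1 : (Fr ^ n) (y : V) = c • (y : V) := by
    have h3 : ((T y : W) : V) = (Fr ^ n) (y : V) := rfl
    rw [← h3, End.mem_eigenspace_iff.1 hy.1]
    rfl
  exact integral_pow hint (fun h => hy.2 (Subtype.ext h)) hy1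

/-- If the parts have simple eigenvalues, `Fr` is semisimple. -/
theorem semisimple_of_parts {ι : Type*} {Fr : End L V} (hinj : Function.Injective Fr)
    {N : Submodule L V} (hN : ∀ x ∈ N, Fr x ∈ N) (hNs : End.IsSemisimple (Fr.restrict hN))
    {W : ι → Submodule L V} (hspan : N ⊔ ⨆ i, W i = ⊤) {n : ι → ℕ} (hn : ∀ i, 0 < n i)
    (hW : ∀ i, ∀ x ∈ W i, (Fr ^ n i) x ∈ W i)
    (h : ∀ i a, mult ((Fr ^ n i).restrict (hW i) : End L (W i)) a ≤ 1) : Fr.IsSemisimple := by
  apply semisimple_of_iSup
  rw [eq_top_iff, ← hspan]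
  refine sup_le (le_of_semisimple hN hNs) (iSup_le fun i => ?_)
  refine le_of_restrict hinj (hn i) (hW i) ?_
  intro x a hx
  exact semis_of_mult (h i a) hx

/-- A residue field of characteristic `r`, algebraically closed, in which `x` is not zero. -/
theorem exists_res_closed {L : Type} [Field L] [CharZero L] {r : ℕ} [Fact r.Prime]
    {x : integralClosure ℤ L} (hx : NotDvd r (x : L)) :
    ∃ (κ : Type) (_ : Field κ) (_ : IsAlgClosed κ) (_ : CharP κ r)
      (ψ : integralClosure ℤ L →+* κ), ψ x ≠ 0 := by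
  obtain ⟨I, hI, hrI, hxI⟩ := exists_maximal hx
  let : Field (integralClosure ℤ L ⧸ I) := Ideal.Quotient.field I
  have hch : CharP (integralClosure ℤ L ⧸ I) r := by
    rw [CharP.charP_iff_prime_eq_zero (Fact.out : r.Prime)]
    have := Ideal.Quotient.eq_zero_iff_mem.2 hrI
    rwa [map_natCast] at this
  have hch2 : CharP (AlgebraicClosure (integralClosure ℤ L ⧸ I)) r :=
    charP_of_injective_algebraMap (algebraMap (integralClosure ℤ L ⧸ I) _).injective r
  refine ⟨AlgebraicClosure (integralClosure ℤ L ⧸ I), inferInstance, inferInstance, hch2,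
    (algebraMap (integralClosure ℤ L ⧸ I) _).comp (Ideal.Quotient.mk I), ?_⟩
  rw [RingHom.comp_apply]
  intro h
  have h1 : Ideal.Quotient.mk I x = 0 :=
    (algebraMap (integralClosure ℤ L ⧸ I) (AlgebraicClosure (integralClosure ℤ L ⧸ I))).injective
      (by rw [h, map_zero])
  exact hxI (Ideal.Quotient.eq_zero_iff_mem.1 h1)

end

end Pool.Agent.Helper40.PC
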