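import Pool.Agent.Helper55.PC.Events
import Pool.Agent.Helper38.PC.SurviveLabels

/-!
# Block C7b `survive_path` (MP_cf7fa9_pr)
-/

namespace Pool.Agent.Helper55.PC

open Finset Filter
open scoped Topology ENNReal Classical

namespace C7b

/-- cell of the last visited test point -/
noncomputable def Jc (L : ℕ) (x : ℤ) (w : ℕ → Slot) (s : ℕ) : ℤ :=
  (cur w (pv L x w s) - x) / (12 * L)

theorem div_eq {L : ℕ} {J e z : ℤ} (hz : z = J * (12 * L) + e) (h0 : 0 ≤ e) (h1 : e < 12 * L) :
    z / (12 * L) = J := by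
  rw [hz, add_comm, Int.add_mul_ediv_right _ _ (by omega), Int.ediv_eq_zero_of_lt h0 h1, zero_add]

theorem inv {L : ℕ} (hL : 0 < L) (w : ℕ → Slot) (x : ℤ) (hx : (L : ℤ) ≤ x) (hx2 : x < 2 * L)
    (s : ℕ) :
    (cur w (pv L x w s) - x = Jc L x w s * (12 * L) + 4 * L ∧
        Jc L x w s * (12 * L) - 4 * L < cur w s - x ∧ cur w s - x < Jc L x w s * (12 * L) + 8 * L) ∨
      (cur w (pv L x w s) - x = Jc L x w s * (12 * L) + 8 * L ∧
        Jc L x w s * (12 * L) + 4 * L < cur w s - x ∧
        cur w s - x < Jc L x w s * (12 * L) + 16 * L) ∨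
      (Jc L x w s = -1 ∧ cur w (pv L x w s) - x = -x ∧ -(4 * L) < cur w s - x ∧
        cur w s - x < 4 * L) := by
  have hL' : (0 : ℤ) < L := by exact_mod_cast hL
  induction s with
  | zero =>
    refine Or.inr (Or.inr ⟨?_, ?_, ?_, ?_⟩)
    · unfold Jc
      apply div_eq (e := 12 * L - x)
      · simp only [pv, cur_zero]; ring
      · linarith
      · linarith
    · simp [pv]
    · simp only [cur_zero]; linarith
    · simp only [cur_zero]; linarith
  | succ s ih =>
    have hmv : |mv (w s)| ≤ 1 := abs_mv_le _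
    obtain ⟨m1, m2⟩ := abs_le.1 hmv
    have hc := cur_succ w s
    by_cases hT : isTest L (cur w (s + 1) - x)
    · have hpv : pv L x w (s + 1) = s + 1 := by rw [pv, if_pos hT]
      obtain ⟨J, hJ | hJ⟩ := hT
      · have e : Jc L x w (s + 1) = J := by
          unfold Jc
          rw [hpv]
          exact div_eq hJ (by linarith) (by linarith)
        left
        rw [e, hpv]
        exact ⟨hJ, by linarith, by linarith⟩
      · have e : Jc L x w (s + 1) = J := by
          unfold Jc
          rw [hpv]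
          exact div_eq hJ (by linarith) (by linarith)
        right; left
        rw [e, hpv]
        exact ⟨hJ, by linarith, by linarith⟩
    · have hpv : pv L x w (s + 1) = pv L x w s := by rw [pv, if_neg hT]
      have e : Jc L x w (s + 1) = Jc L x w s := by unfold Jc; rw [hpv]
      rw [e, hpv]
      set J := Jc L x w s
      have ht : ∀ K : ℤ, cur w (s + 1) - x ≠ K * (12 * L) + 4 * L ∧
          cur w (s + 1) - x ≠ K * (12 * L) + 8 * L := fun K =>
        ⟨fun h => hT ⟨K, Or.inl h⟩, fun h => hT ⟨K, Or.inr h⟩⟩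
      have h1 := (ht (J - 1)).2
      have h2 := (ht J).1
      have h3 := (ht J).2
      have h4 := (ht (J + 1)).1
      have h5 := (ht (-1)).2
      have h6 := (ht 0).1
      have r1 : (J - 1) * (12 * (L : ℤ)) = J * (12 * L) - 12 * L := by ring
      have r2 : (J + 1) * (12 * (L : ℤ)) = J * (12 * L) + 12 * L := by ring
      rw [r1] at h1
      rw [r2] at h4
      rcases ih with ⟨a, b, c⟩ | ⟨a, b, c⟩ | ⟨a, a', b, c⟩
      · left
        refine ⟨a, ?_, ?_⟩ <;> omega
      · right; left
        refine ⟨a, ?_, ?_⟩ <;> omega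
      · right; right
        refine ⟨a, a', ?_, ?_⟩ <;> omega

theorem near {L : ℕ} (hL : 0 < L) (w : ℕ → Slot) (x : ℤ) (hx : (L : ℤ) ≤ x) (hx2 : x < 2 * L)
    (s : ℕ) : Jc L x w s * (12 * L) - 4 * L < cur w s - x ∧
      cur w s - x < Jc L x w s * (12 * L) + 16 * L := by
  have hL' : (0 : ℤ) < L := by exact_mod_cast hL
  rcases inv hL w x hx hx2 s with ⟨a, b, c⟩ | ⟨a, b, c⟩ | ⟨a, a', b, c⟩
  · exact ⟨b, by linarith⟩
  · exact ⟨by linarith, c⟩
  · rw [a]
    exact ⟨by linarith, by linarith⟩

/-- the change of the cell -/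
theorem change {L : ℕ} (hL : 0 < L) (w : ℕ → Slot) (x : ℤ) (hx : (L : ℤ) ≤ x) (hx2 : x < 2 * L)
    (s : ℕ) (hne : Jc L x w (s + 1) ≠ Jc L x w s) :
    isTest L (cur w (s + 1) - x) ∧
      ((Jc L x w (s + 1) = Jc L x w s + 1 ∧
          -(8 * L) ≤ cur w (pv L x w s) - x - Jc L x w (s + 1) * (12 * L) ∧
          cur w (pv L x w s) - x - Jc L x w (s + 1) * (12 * L) ≤ -L ∧
          cur w (s + 1) - x - Jc L x w (s + 1) * (12 * L) = 4 * L) ∨
        (Jc L x w (s + 1) = Jc L x w s - 1 ∧
          4 * L ≤ cur w (pv L x w s) - x - Jc L x w s * (12 * L) ∧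
          cur w (pv L x w s) - x - Jc L x w s * (12 * L) ≤ 8 * L ∧
          cur w (s + 1) - x - Jc L x w s * (12 * L) = -(4 * L))) := by
  have hL' : (0 : ℤ) < L := by exact_mod_cast hL
  have hT : isTest L (cur w (s + 1) - x) := by
    by_contra hT
    apply hne
    unfold Jc
    rw [pv, if_neg hT]
  refine ⟨hT, ?_⟩
  have hpv : pv L x w (s + 1) = s + 1 := by rw [pv, if_pos hT]
  have hmv : |mv (w s)| ≤ 1 := abs_mv_le _
  obtain ⟨m1, m2⟩ := abs_le.1 hmv
  have hc := cur_succ w s
  have hI := inv hL w x hx hx2 s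
  obtain ⟨J, hJ⟩ := hT
  have e : Jc L x w (s + 1) = J := by
    unfold Jc
    rw [hpv]
    rcases hJ with hJ | hJ
    · exact div_eq hJ (by linarith) (by linarith)
    · exact div_eq hJ (by linarith) (by linarith)
  rw [e] at hne ⊢
  set K := Jc L x w s
  have key : J = K + 1 ∨ J = K - 1 ∨ J = K := by
    have b1 : K * (12 * (L : ℤ)) - 4 * L ≤ cur w (s + 1) - x ∧
        cur w (s + 1) - x ≤ K * (12 * L) + 16 * L := by
      obtain ⟨n1, n2⟩ := near hL w x hx hx2 s
      constructor <;> linarith
    have b2 : J * (12 * (L : ℤ)) + 4 * L ≤ cur w (s + 1) - x ∧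
        cur w (s + 1) - x ≤ J * (12 * L) + 8 * L := by
      rcases hJ with hJ | hJ <;> constructor <;> linarith
    have b3 : (J - K) * (12 * (L : ℤ)) ≤ 12 * L := by
      have : (J - K) * (12 * (L : ℤ)) = J * (12 * L) - K * (12 * L) := by ring
      rw [this]; linarith
    have b4 : (K - J) * (12 * (L : ℤ)) ≤ 12 * L := by
      have : (K - J) * (12 * (L : ℤ)) = K * (12 * L) - J * (12 * L) := by ring
      rw [this]; linarith
    have b5 : J - K ≤ 1 := by
      by_contra h
      push Not at h
      nlinarith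
    have b6 : K - J ≤ 1 := by
      by_contra h
      push Not at h
      nlinarith
    omega
  rcases key with rfl | rfl | h
  · left
    have r2 : (K + 1) * (12 * (L : ℤ)) = K * (12 * L) + 12 * L := by ring
    rw [r2] at hJ ⊢
    rcases hI with ⟨a, b, c⟩ | ⟨a, b, c⟩ | ⟨a, a', b, c⟩
    · refine ⟨rfl, by linarith, by linarith, ?_⟩
      rcases hJ with hJ | hJ
      · linarith
      · exfalso; linarith
    · refine ⟨rfl, by linarith, by linarith, ?_⟩
      rcases hJ with hJ | hJ
      · linarith
      · exfalso; linarith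
    · rw [a] at hJ ⊢
      refine ⟨rfl, by linarith, by linarith, ?_⟩
      rcases hJ with hJ | hJ
      · linarith
      · exfalso; linarith
  · right
    have r2 : (K - 1) * (12 * (L : ℤ)) = K * (12 * L) - 12 * L := by ring
    rw [r2] at hJ
    rcases hI with ⟨a, b, c⟩ | ⟨a, b, c⟩ | ⟨a, a', b, c⟩
    · refine ⟨rfl, by linarith, by linarith, ?_⟩
      rcases hJ with hJ | hJ
      · exfalso; linarith
      · linarith
    · refine ⟨rfl, by linarith, by linarith, ?_⟩
      rcases hJ with hJ | hJ
      · exfalso; linarith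
      · exfalso; linarith
    · rw [a] at hJ
      exfalso
      rcases hJ with hJ | hJ <;> linarith
  · exact absurd h hne

end C7b

section
variable {k r L : ℕ} [NeZero k] [NeZero L] {R U : Type} [Group R] [Fintype R]
    [AddCommGroup U] [Fintype U] [DistribMulAction R U] {s q : R} {u : Idx k r → U} {W : Pat}

open C7b in
theorem survive_path {M t : ℕ} (hk : 2 ≤ k) (hkM : k + 3 ≤ M) (w : ℕ → Slot) (x : ℤ) (hx : (L : ℤ) ≤ x)
    (hx2 : x < 2 * L) (hleg : Legs ((k + 4) * (12 * L)) ((M - k - 2) * (12 * L)) t w) :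
    ∃ Lab : ℕ → ZMod k → ℕ, (∀ s j, Lab s j ≤ M) ∧
      (∀ s ≤ t, ∀ J : ℤ, (cur w s - x = J * (12 * L) + 4 * L ∨ cur w s - x = J * (12 * L) + 8 * L) →
        Lab s ((J - 1 : ℤ) : ZMod k) < Lab s (J : ZMod k)) ∧
      (∀ s j, Lab (s + 1) j ≠ Lab s j → s < t ∧ isTest L (cur w (s + 1) - x) ∧
        ∃ J : ℤ, (J : ZMod k) = j ∧
        ((-(8 * L) ≤ cur w (pv L x w s) - x - J * (12 * L) ∧
            cur w (pv L x w s) - x - J * (12 * L) ≤ -L ∧
            cur w (s + 1) - x - J * (12 * L) = 4 * L) ∨
          (4 * L ≤ cur w (pv L x w s) - x - J * (12 * L) ∧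
            cur w (pv L x w s) - x - J * (12 * L) ≤ 8 * L ∧
            cur w (s + 1) - x - J * (12 * L) = -(4 * L)))) := by
  have hL : 0 < L := Nat.pos_of_ne_zero (NeZero.ne L)
  have hL' : (0 : ℤ) < L := by exact_mod_cast hL
  have hmR : (((M - k - 2) * (12 * L) : ℕ) : ℤ) = ((M : ℤ) - k - 2) * (12 * L) := by
    push_cast [Nat.cast_sub (show 2 ≤ M - k by omega), Nat.cast_sub (show k ≤ M by omega)]
    ring
  have hmm : (((k + 4) * (12 * L) : ℕ) : ℤ) = ((k : ℤ) + 4) * (12 * L) := by push_cast; ring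
  have hA : ((M + 1 - k : ℕ) : ℤ) = (M : ℤ) + 1 - k := by
    rw [Nat.cast_sub (by omega)]; push_cast; ring
  have hnear := near hL w x hx hx2
  -- comparison of the differences
  have dj : ∀ a b : ℕ, ((Jc L x w b - Jc L x w a) * (12 * (L : ℤ)) - 20 * L < cur w b - cur w a) := by
    intro a b
    obtain ⟨a1, a2⟩ := hnear a
    obtain ⟨b1, b2⟩ := hnear b
    have : (Jc L x w b - Jc L x w a) * (12 * (L : ℤ)) =
      Jc L x w b * (12 * L) - Jc L x w a * (12 * L) := by ring
    rw [this]; linarith
  obtain ⟨Lab, h1, h2, h3⟩ := survive_labels k (M + 1 - k) M hk (by omega)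
    (fun s => Jc L x w (min s t))
    (by
      intro n
      rcases lt_or_ge n t with hn | hn
      · rw [min_eq_left hn.le, min_eq_left (by omega)]
        by_cases he : Jc L x w (n + 1) = Jc L x w n
        · rw [he]; simp
        · rcases (change hL w x hx hx2 n he).2 with h | h
          · rw [h.1]; simp
          · rw [h.1]; simp
      · rw [min_eq_right hn, min_eq_right (by omega)]; simp)
    (by
      intro s s' hss hlt

      have hst : s ≤ t := by
        by_contra h
        push Not at h
        rw [min_eq_right h.le, min_eq_right (h.le.trans hss)] at hlt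
        rw [sub_self] at hlt
        have : (0 : ℤ) ≤ ((M + 1 - k : ℕ) : ℤ) := Int.natCast_nonneg _
        omega
      rw [min_eq_left hst] at hlt
      rw [hA] at hlt
      have hd := dj s (min s' t)
      have hprod : ((M : ℤ) + 1 - k + 1) * (12 * L) ≤
          (Jc L x w (min s' t) - Jc L x w s) * (12 * (L : ℤ)) :=
        mul_le_mul_of_nonneg_right (by omega) (by linarith)
      obtain ⟨u, v, hu, huv, hv, hm⟩ := (hleg s (min s' t) (le_min hss hst) (min_le_right _ _)).1
        (by rw [hmR]; nlinarith)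
      refine ⟨u, v, hu, huv, hv.trans (min_le_left _ _), ?_⟩
      rw [min_eq_left (huv.trans (hv.trans (min_le_right _ _))),
        min_eq_left (hv.trans (min_le_right _ _))]
      rw [hmm] at hm
      -- `cur u - cur v < (J u - J v) * g + 20 L`
      have hd2 := dj u v
      by_contra hlt2
      push Not at hlt2
      have : (Jc L x w u - Jc L x w v) * (12 * (L : ℤ)) ≤ (k : ℤ) * (12 * L) :=
        mul_le_mul_of_nonneg_right hlt2.le (by linarith)
      nlinarith)
    (by
      intro s s' hss hlt

      have hst : s ≤ t := by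
        by_contra h
        push Not at h
        rw [min_eq_right h.le, min_eq_right (h.le.trans hss)] at hlt
        rw [sub_self] at hlt
        have : (0 : ℤ) ≤ ((M + 1 - k : ℕ) : ℤ) := Int.natCast_nonneg _
        omega
      rw [min_eq_left hst] at hlt
      rw [hA] at hlt
      have hd := dj (min s' t) s
      have hprod : ((M : ℤ) + 1 - k + 1) * (12 * L) ≤
          (Jc L x w s - Jc L x w (min s' t)) * (12 * (L : ℤ)) :=
        mul_le_mul_of_nonneg_right (by omega) (by linarith)
      obtain ⟨u, v, hu, huv, hv, hm⟩ := (hleg s (min s' t) (le_min hss hst) (min_le_right _ _)).2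
        (by rw [hmR]; nlinarith)
      refine ⟨u, v, hu, huv, hv.trans (min_le_left _ _), ?_⟩
      rw [min_eq_left (huv.trans (hv.trans (min_le_right _ _))),
        min_eq_left (hv.trans (min_le_right _ _))]
      rw [hmm] at hm
      have hd2 := dj v u
      by_contra hlt2
      push Not at hlt2
      have : (Jc L x w v - Jc L x w u) * (12 * (L : ℤ)) ≤ (k : ℤ) * (12 * L) :=
        mul_le_mul_of_nonneg_right hlt2.le (by linarith)
      nlinarith)
  refine ⟨Lab, h1, ?_, ?_⟩
  · intro s hs J hJ
    have hs0 : s ≠ 0 := by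
      rintro rfl
      rw [cur_zero] at hJ
      rcases hJ with hJ | hJ
      · have h : (J * (12 * (L : ℤ))) = -x - 4 * L := by linarith
        rcases le_or_gt 0 J with hJ0 | hJ0
        · have : 0 ≤ J * (12 * (L : ℤ)) := mul_nonneg hJ0 (by linarith)
          linarith
        · have : J * (12 * (L : ℤ)) ≤ (-1) * (12 * L) :=
            mul_le_mul_of_nonneg_right (by omega) (by linarith)
          linarith
      · have h : (J * (12 * (L : ℤ))) = -x - 8 * L := by linarith
        rcases le_or_gt 0 J with hJ0 | hJ0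
        · have : 0 ≤ J * (12 * (L : ℤ)) := mul_nonneg hJ0 (by linarith)
          linarith
        · have : J * (12 * (L : ℤ)) ≤ (-1) * (12 * L) :=
            mul_le_mul_of_nonneg_right (by omega) (by linarith)
          linarith
    obtain ⟨n, rfl⟩ := Nat.exists_eq_succ_of_ne_zero hs0
    have hT : isTest L (cur w (n + 1) - x) := ⟨J, hJ⟩
    have e : Jc L x w (n + 1) = J := by
      unfold Jc
      rw [pv, if_pos hT]
      rcases hJ with hJ | hJ
      · exact div_eq hJ (by linarith) (by linarith)
      · exact div_eq hJ (by linarith) (by linarith)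
    have h4 := h2 (n + 1)
    simp only [min_eq_left hs] at h4
    rw [e] at h4
    exact h4
  · intro s j hne
    obtain ⟨h5, h6⟩ := h3 s j hne

    have hst : s < t := by
      by_contra h
      push Not at h
      rw [min_eq_right h, min_eq_right (by omega)] at h5
      exact h5 rfl
    rw [min_eq_left hst.le, min_eq_left (show s + 1 ≤ t by omega)] at h5 h6
    obtain ⟨hT, hcase⟩ := change hL w x hx hx2 s h5
    refine ⟨hst, hT, ?_⟩
    rcases hcase with ⟨c1, c2, c3, c4⟩ | ⟨c1, c2, c3, c4⟩
    · refine ⟨Jc L x w (s + 1), ?_, Or.inl ⟨c2, c3, c4⟩⟩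
      rw [h6, max_eq_right (by omega)]
    · refine ⟨Jc L x w s, ?_, Or.inr ⟨c2, c3, c4⟩⟩
      rw [h6, max_eq_left (by omega)]

end

end Pool.Agent.Helper55.PC
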